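import Pool.Agent.P.MP_44bffd_co.LS.Gen
import Pool.Agent.P.MP_44bffd_co.LS.Der
import Pool.Agent.P.MP_44bffd_co.LS.Diff
import Pool.Agent.P.MP_44bffd_co.LS.Kum
import Pool.Agent.P.MP_44bffd_co.LS.Ext
import Pool.Agent.P.MP_44bffd_co.LS.Units
import Pool.Agent.P.MP_44bffd_co.LS.Tower
import Pool.Agent.P.MP_44bffd_co.LS.Pairs
import Pool.Agent.P.MP_44bffd_co.LS.CM
import Pool.Agent.P.MP_44bffd_co.LS.Count
import Pool.Agent.P.MP_44bffd_co.LS.Mink
import Pool.Agent.P.MP_44bffd_co.LS.Vec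
import Pool.Agent.P.MP_44bffd_co.LS.Graph
import Pool.Agent.P.MP_44bffd_co.LS.Dy
import Pool.Agent.P.MP_44bffd_co.LS.Pot
import Pool.Agent.P.MP_44bffd_co.LS.Near
import Pool.Agent.P.MP_44bffd_co.LS.Base
import Pool.Agent.P.MP_44bffd_co.LS.Lot
import Pool.Agent.P.MP_44bffd_co.LS.Link
import Pool.Agent.P.MP_44bffd_co.LS.OneW
import Pool.Agent.P.MP_44bffd_co.LS.Abs
import Pool.Agent.P.MP_44bffd_co.LS.Round
import Pool.Agent.P.MP_44bffd_co.LS.Iter
import Pool.Agent.P.MP_44bffd_co.LS.Fin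

namespace Pool.Agent.Results.MP_44bffd_co.LogStar

open Pool.Agent.P.MP_44bffd_co.LS

/-- If `d` is at most the tower of twos of height `k`, there is a planar point set with at most
`d ^ (C ^ k)` points in which every point has exactly `d` points of the set at distance one. -/
theorem result : ∃ C : ℕ, ∀ d k : ℕ, 2 ≤ d → d ≤ (fun x => 2 ^ x)^[k] 1 →
    ∃ P : Finset (EuclideanSpace ℝ (Fin 2)), P.Nonempty ∧
      (∀ p ∈ P, {q | q ∈ P ∧ dist p q = 1}.ncard = d) ∧ P.card ≤ d ^ (C ^ k) := by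
  have hE := p_Ext (p_Diff p_Gen p_Der) p_Kum
  have hB := p_Base (p_Tower hE p_Units) (p_CM hE p_Pairs) (p_Vec p_Count p_Mink) p_Graph p_Dy
    p_Pot p_Near
  have hI := p_Iter (p_Round p_Lot (p_One p_Link) (p_W p_Link) p_Abs p_Two)
  obtain ⟨C, hC⟩ := graph_final hB hI
  refine ⟨C, fun d k hd hk => ?_⟩
  obtain ⟨V, G, h1, h2⟩ := hC d k hd hk
  obtain ⟨P, h3, h4, h5⟩ := to_plane G h2
  exact ⟨P, h3, h4, h5.trans h1⟩

end Pool.Agent.Results.MP_44bffd_co.LogStar
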