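import Pool.Agent.P.MP_44bffd_co.Iter

namespace Pool.Agent.Results.MP_44bffd_co.QuasiPoly

open Pool.Agent.P.MP_44bffd_co
open scoped Classical

/-- A quasi-polynomial upper bound for the least size of a planar point set in which every point
has exactly `d` points of the set at distance one. -/
theorem result : ∃ C : ℝ, ∀ d : ℕ, 2 ≤ d →
    ∃ P : Finset (EuclideanSpace ℝ (Fin 2)), P.Nonempty ∧
      (∀ p ∈ P, {q | q ∈ P ∧ dist p q = 1}.ncard = d) ∧
      (P.card : ℝ) ≤ Real.exp (C * Real.log d ^ 5) := by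
  refine ⟨2400000 * 42 ^ 5, fun d hd => ?_⟩
  obtain ⟨k, hk1, hk2⟩ := exists_pow_between d
  obtain ⟨J, hJ1, hJ2⟩ := exists_pow_between (3 * (k + 1))
  obtain ⟨V, G, hc, hG⟩ := regular_exists d k J hk1 hJ1
  obtain ⟨f, f1, f2⟩ := G.real
  let e : ℂ ≃ₗᵢ[ℝ] EuclideanSpace ℝ (Fin 2) := Complex.orthonormalBasisOneI.repr
  have hinj : Set.InjOn (fun v => e (f v)) G.s := fun a ha b hb h => f1 ha hb (e.injective h)
  refine ⟨G.s.image (fun v => e (f v)), G.ne.image _, ?_, ?_⟩
  · intro p hp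
    obtain ⟨v, hv, rfl⟩ := Finset.mem_image.1 hp
    have : {q | q ∈ G.s.image (fun v => e (f v)) ∧ dist (e (f v)) q = 1} =
        ((G.s.filter (G.adj v)).image (fun v => e (f v)) : Finset _) := by
      ext q
      simp only [Set.mem_ofPred_eq, Finset.mem_image, Finset.coe_image, Finset.coe_filter,
        Set.mem_image]
      constructor
      · rintro ⟨⟨w, hw, rfl⟩, h⟩
        rw [e.dist_map] at h
        exact ⟨w, ⟨hw, (f2 v hv w hw).2 h⟩, rfl⟩
      · rintro ⟨w, ⟨hw, h⟩, rfl⟩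
        exact ⟨⟨w, hw, rfl⟩, by rw [e.dist_map]; exact (f2 v hv w hw).1 h⟩
    rw [this, Set.ncard_coe_finset, Finset.card_image_of_injOn
      (hinj.mono (by exact_mod_cast Finset.filter_subset _ _)), ← deg_eq, hG v hv]
  · have h1 : ((G.s.image (fun v => e (f v))).card : ℝ) ≤ 2 ^ (2400000 * (2 ^ J) ^ 5) := by
      exact_mod_cast Finset.card_image_le.trans hc
    refine h1.trans ?_
    have hl2 : (0.6931471803 : ℝ) < Real.log 2 := Real.log_two_gt_d9
    have hdr : (2 : ℝ) ≤ d := by exact_mod_cast hd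
    have hlog : Real.log 2 ≤ Real.log d := Real.log_le_log (by norm_num) hdr
    have hk : (k : ℝ) * Real.log 2 ≤ 2 * Real.log 2 + Real.log d := by
      have b1 : (2 : ℝ) ^ k ≤ 2 ^ 2 * d := by
        have : 2 ^ k ≤ 2 ^ 2 * d := by omega
        exact_mod_cast this
      have b2 := Real.log_le_log (by positivity) b1
      rw [Real.log_pow, Real.log_mul (by norm_num) (by positivity), Real.log_pow] at b2
      exact_mod_cast b2
    have hk' : (k : ℝ) + 1 ≤ 6 * Real.log d := by
      have : ((k : ℝ) + 1) * Real.log 2 ≤ 4 * Real.log d := by nlinarith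
      have hk0 : (0 : ℝ) ≤ k := by positivity
      nlinarith
    have hn : ((2 ^ J : ℕ) : ℝ) ≤ 42 * Real.log d := by
      have : 2 ^ J ≤ 7 * (k + 1) := by omega
      have : ((2 ^ J : ℕ) : ℝ) ≤ 7 * (k + 1) := by exact_mod_cast this
      linarith
    have h2 : (2 : ℝ) ≤ Real.exp 1 := by linarith [Real.add_one_le_exp (1 : ℝ)]
    calc (2 : ℝ) ^ (2400000 * (2 ^ J) ^ 5) ≤ Real.exp 1 ^ (2400000 * (2 ^ J) ^ 5) := by gcongr
      _ = Real.exp (2400000 * ((2 ^ J : ℕ) : ℝ) ^ 5) := by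
          rw [← Real.exp_nat_mul]; push_cast; ring_nf
      _ ≤ _ := by
          apply Real.exp_le_exp.2
          have : ((2 ^ J : ℕ) : ℝ) ^ 5 ≤ (42 * Real.log d) ^ 5 := by gcongr
          rw [mul_pow] at this
          linarith

end Pool.Agent.Results.MP_44bffd_co.QuasiPoly
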